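import Pool.Agent.Helper92.MT.AP
import Pool.Agent.Helper40.MT.Stmts

/-!
# APS: the eigenvalues of the elements of `sl2 C n` are arithmetic progressions (helper92)
-/

set_option autoImplicit false
set_option maxHeartbeats 800000

namespace MT.Gen

open Matrix Polynomial

theorem ap_sl2 (C : Type) [Field C] [CharZero C] [IsAlgClosed C] (n : ℕ)
    (T : Matrix (Fin n) (Fin n) C) (hT : T ∈ sl2 C n) :
    ∃ c d : C, T.charpoly = ∏ j : Fin n, (X - Polynomial.C (c + d * ((j : ℕ) : C))) := by
  rcases n with _ | N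
  · exact ⟨0, 0, by simp [Matrix.charpoly]⟩
  have hmem : ∃ a b c d : C, T = a • 1 + b • eE C N + c • eH C N + d • eF C N := by
    rw [sl2] at hT
    have e1 : (Matrix.of fun i j : Fin (N + 1) => if (i : ℕ) = (j : ℕ) + 1 then (1 : C) else 0) =
        eE C N := by
      ext i j; simp [eE, up]
    have e2 : (Matrix.diagonal fun i : Fin (N + 1) =>
        ((N + 1 : ℕ) : C) - 1 - 2 * ((i : ℕ) : C)) = -eH C N := by
      rw [eH, Matrix.diagonal_neg]
      congr 1
      funext i
      push_cast
      ring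
    have e3 : (Matrix.of fun i j : Fin (N + 1) => if (i : ℕ) + 1 = (j : ℕ) then
        ((j : ℕ) : C) * (((N + 1 : ℕ) : C) - ((j : ℕ) : C)) else 0) = eF C N := by
      ext i j
      simp only [eF, dn, Matrix.of_apply]
      by_cases h : (i : ℕ) + 1 = j
      · rw [if_pos h, if_pos h.symm, ← h]
        push_cast
        ring
      · rw [if_neg h, if_neg (fun h' => h h'.symm)]
    rw [e1, e2, e3] at hT
    obtain ⟨a, z1, hz1, h1⟩ := Submodule.mem_span_insert.mp hT
    obtain ⟨b, z2, hz2, h2⟩ := Submodule.mem_span_insert.mp hz1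
    obtain ⟨c, z3, hz3, h3⟩ := Submodule.mem_span_insert.mp hz2
    obtain ⟨d, h4⟩ := Submodule.mem_span_singleton.mp hz3
    refine ⟨a, b, -c, d, ?_⟩
    rw [h1, h2, h3, ← h4]
    module
  obtain ⟨a, b, c, d, rfl⟩ := hmem
  obtain ⟨δ, hδ⟩ := IsAlgClosed.exists_pow_nat_eq (c ^ 2 + b * d) (n := 2) (by norm_num)
  refine ⟨a - N * δ, 2 * δ, ?_⟩
  rw [ap a b c d δ hδ]
  refine Finset.prod_congr rfl fun i _ => ?_
  congr 2
  ring

theorem ap_span {K C : Type} [Field K] [Field C] [Algebra K C] [CharZero C] [IsAlgClosed C]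
    {n : ℕ} (a : Submodule K (Matrix (Fin n) (Fin n) K)) (P : Matrix.GeneralLinearGroup (Fin n) K)
    (ha : ∀ A ∈ a, ((P⁻¹ : Matrix.GeneralLinearGroup (Fin n) K) : Matrix (Fin n) (Fin n) K) * A *
          (P : Matrix (Fin n) (Fin n) K) ∈ sl2 K n)
    (T : Matrix (Fin n) (Fin n) C)
    (hT : T ∈ Submodule.span C {B | ∃ A ∈ a, B = A.map (algebraMap K C)}) :
    ∃ c d : C, T.charpoly = ∏ j : Fin n, (X - Polynomial.C (c + d * ((j : ℕ) : C))) := by
  set f : Matrix (Fin n) (Fin n) K →+* Matrix (Fin n) (Fin n) C :=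
    (algebraMap K C).mapMatrix (m := Fin n) with hf
  set Q : Matrix.GeneralLinearGroup (Fin n) C := Units.map (f : _ →* _) P with hQ
  have hQ1 : (Q : Matrix (Fin n) (Fin n) C) = f P := rfl
  have hQ2 : ((Q⁻¹ : Matrix.GeneralLinearGroup (Fin n) C) : Matrix (Fin n) (Fin n) C) =
      f ((P⁻¹ : Matrix.GeneralLinearGroup (Fin n) K) : Matrix (Fin n) (Fin n) K) := rfl
  -- base change of sl2
  have hb : ∀ A ∈ sl2 K n, f A ∈ sl2 C n := by
    intro A hA
    rw [sl2] at hA
    induction hA using Submodule.span_induction with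
    | mem x hx =>
      rw [sl2]
      rcases hx with rfl | rfl | rfl | rfl
      · rw [map_one]; exact Submodule.subset_span (by simp)
      · refine Submodule.subset_span (Or.inr (Or.inl ?_))
        ext i j
        simp only [hf, RingHom.mapMatrix_apply, Matrix.map_apply, Matrix.of_apply]
        split_ifs <;> simp
      · refine Submodule.subset_span (Or.inr (Or.inr (Or.inl ?_)))
        rw [hf, RingHom.mapMatrix_apply, Matrix.diagonal_map (map_zero _)]
        congr 1
        funext i
        simp only [map_sub, map_mul, map_natCast, map_one, map_ofNat]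
      · refine Submodule.subset_span (Or.inr (Or.inr (Or.inr ?_)))
        ext i j
        simp only [hf, RingHom.mapMatrix_apply, Matrix.map_apply, Matrix.of_apply]
        split_ifs <;> simp
    | zero => rw [map_zero]; exact Submodule.zero_mem _
    | add x y _ _ hx hy => rw [map_add]; exact Submodule.add_mem _ hx hy
    | smul c x _ hx =>
      have : f (c • x) = (algebraMap K C c) • f x := by
        ext i j
        simp [hf]
      rw [this]
      exact Submodule.smul_mem _ _ hx
  have hTs : ((Q⁻¹ : Matrix.GeneralLinearGroup (Fin n) C) : Matrix (Fin n) (Fin n) C) * T *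
      (Q : Matrix (Fin n) (Fin n) C) ∈ sl2 C n := by
    induction hT using Submodule.span_induction with
    | mem x hx =>
      obtain ⟨A, hA, rfl⟩ := hx
      have : ((Q⁻¹ : Matrix.GeneralLinearGroup (Fin n) C) : Matrix (Fin n) (Fin n) C) *
          A.map (algebraMap K C) * (Q : Matrix (Fin n) (Fin n) C) =
          f (((P⁻¹ : Matrix.GeneralLinearGroup (Fin n) K) : Matrix (Fin n) (Fin n) K) * A *
          (P : Matrix (Fin n) (Fin n) K)) := by
        rw [map_mul, map_mul, ← hQ1, ← hQ2]
        rfl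
      rw [this]
      exact hb _ (ha A hA)
    | zero => simp
    | add x y _ _ hx hy =>
      rw [Matrix.mul_add, Matrix.add_mul]; exact Submodule.add_mem _ hx hy
    | smul c x _ hx =>
      rw [Matrix.mul_smul, Matrix.smul_mul]; exact Submodule.smul_mem _ _ hx
  obtain ⟨c, d, hcd⟩ := ap_sl2 C n _ hTs
  refine ⟨c, d, ?_⟩
  rw [← hcd, Matrix.charpoly_mul_comm, ← Matrix.mul_assoc]
  have : (Q : Matrix (Fin n) (Fin n) C) *
      ((Q⁻¹ : Matrix.GeneralLinearGroup (Fin n) C) : Matrix (Fin n) (Fin n) C) = 1 := by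
    rw [← Units.val_mul, mul_inv_cancel, Units.val_one]
  rw [this, Matrix.one_mul]

end MT.Gen
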