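import Pool.Agent.Helper92.MT.IRML
import Pool.Agent.Helper28.MU.MIX
import Pool.Agent.Helper84.MU.CYC

/-! IRM2: irreducibility (helper92; the mixed case follows helper28's MIX). -/

set_option autoImplicit false
set_option maxHeartbeats 800000

open Matrix Polynomial NumberField MU

namespace MT

section
variable {F : Type} [Field F] [NumberField F] {S : Finset ℕ} {n w : ℕ} {h : Fin n → ℕ}

lemma irm2_conj (M : PMot F S n w h) (l : ℕ) [Fact l.Prime] (p : ℕ) {𝔓 𝔔 : Ideal (Zb F)}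
    (g : Gal F)
    (hg : ∀ x y : Zb F, (y : AlgebraicClosure F) = g (x : AlgebraicClosure F) →
      (x ∈ 𝔓 ↔ y ∈ 𝔔)) (hM : M.MumAt l p 𝔓) : M.MumAt l p 𝔔 := by
  obtain ⟨τ, h1, h2, h3, h4⟩ := hM
  refine ⟨g * τ * g⁻¹, mix_cong g hg 1 τ h1, ?_, ?_, ?_⟩
  · have e : (mat (M.ρ l) (g * τ * g⁻¹) - 1) ^ n =
        mat (M.ρ l) g * (mat (M.ρ l) τ - 1) ^ n * mat (M.ρ l) g⁻¹ := by
      rw [mix_pow (mat (M.ρ l)) g τ n]
      have e1 : mat (M.ρ l) g * mat (M.ρ l) g⁻¹ = 1 := by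
        rw [← map_mul, mul_inv_cancel, map_one]
      calc (mat (M.ρ l) (g * τ * g⁻¹) - 1) ^ n = (mat (M.ρ l) g * mat (M.ρ l) g⁻¹) *
            (mat (M.ρ l) (g * τ * g⁻¹) - 1) ^ n * (mat (M.ρ l) g * mat (M.ρ l) g⁻¹) := by
            rw [e1, Matrix.one_mul, Matrix.mul_one]
        _ = _ := by simp only [Matrix.mul_assoc]
    rw [e, h2, Matrix.mul_zero, Matrix.zero_mul]
  · intro h0
    apply h3
    rw [mix_pow (mat (M.ρ l)) g τ, h0, Matrix.mul_zero, Matrix.zero_mul]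
  · intro k g' hk hg'
    have hg2 : ∀ x y : Zb F, (y : AlgebraicClosure F) = g⁻¹ (x : AlgebraicClosure F) →
        (x ∈ 𝔔 ↔ y ∈ 𝔓) := by
      intro x y hxy
      refine (hg y x ?_).symm
      rw [hxy, mix_inv]
    have h5 := mix_cong g⁻¹ hg2 (p ^ k) g' hg'
    rw [inv_inv] at h5
    have h6 := h4 k _ hk h5
    have h7 : g' * (g * τ * g⁻¹) * g'⁻¹ =
        g * ((g⁻¹ * g' * g) * τ * (g⁻¹ * g' * g)⁻¹) * g⁻¹ := by group
    rw [h7, map_mul, map_mul, h6, map_mul, map_mul, map_inv, conj_pow]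

/-- the determinant of a Frobenius element -/
lemma irm2_det (M : PMot F S n w h) (l : ℕ) [Fact l.Prime] (p : ℕ) (hp : p.Prime) (hpl : p ≠ l)
    {𝔓 : Ideal (Zb F)} (h𝔓 : Over p 𝔓) (k : ℕ) (g : Gal F) (hg : CongPow 𝔓 (p ^ k) g) :
    (mat (M.ρ l) g).det ^ 2 * (p : ℚ_[l]) ^ (k * (w * n)) = 1 := by
  have h1 := M.ψ_gal l g
  have h2 := st_CYC F F l p hp hpl 𝔓 h𝔓 k g hg
  have h3 := congrArg Matrix.det h1
  rw [Matrix.det_smul, Fintype.card_fin, Matrix.det_mul, Matrix.det_mul, Matrix.det_transpose,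
    h2] at h3
  have h4 : (bas ℚ_[l] M.ψ).det ≠ 0 := by
    have e : (bas ℚ_[l] M.ψ).det = ((M.ψ.det : ℚ) : ℚ_[l]) := by
      have e1 : bas ℚ_[l] M.ψ = (Rat.castHom ℚ_[l]).mapMatrix M.ψ := rfl
      rw [e1, ← RingHom.map_det]
      rfl
    rw [e]
    exact_mod_cast M.ψ_det
  have h5 : (((((p : ℤ_[l]) ^ k : ℤ_[l]) : ℚ_[l]) ^ w) ^ n *
      (mat (M.ρ l) g).det ^ 2) * (bas ℚ_[l] M.ψ).det = 1 * (bas ℚ_[l] M.ψ).det := by
    rw [one_mul]
    calc _ = (((((p : ℤ_[l]) ^ k : ℤ_[l]) : ℚ_[l]) ^ w) ^ n) *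
          ((mat (M.ρ l) g).det * (bas ℚ_[l] M.ψ).det * (mat (M.ρ l) g).det) := by ring
      _ = _ := h3
  have h6 := mul_right_cancel₀ h4 h5
  have h7 : ((((p : ℤ_[l]) ^ k : ℤ_[l]) : ℚ_[l]) ^ w) ^ n = (p : ℚ_[l]) ^ (k * (w * n)) := by
    rw [PadicInt.coe_pow, PadicInt.coe_natCast, ← pow_mul, ← pow_mul]
  rw [← h7, mul_comm]
  exact h6

/-- the contribution of one place over `p` -/
lemma irm2_place (lin : ST_LIN) (M : PMot F S n w h) (l : ℕ) [Fact l.Prime] (p : ℕ)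
    (hp : p.Prime) (hpl : p ≠ l)
    {m : ℕ} (B : Matrix (Fin n) (Fin m) ℚ_[l])
    (A : Gal F → Matrix (Fin m) (Fin m) ℚ_[l]) (hs : IsSub (mat (M.ρ l)) B A) (E : ℕ)
    (hE : 1 ≤ E) (hn : 0 < n)
    {𝔓 : Ideal (Zb F)} (h𝔓 : Over p 𝔓) (k : ℕ) (hk : 1 ≤ k) (x : Gal F)
    (hx : CongPow 𝔓 (p ^ k) x) (hM : M.MumAt l p 𝔓 ∨ M.PureAt l p 𝔓) :
    ∃ (t u : ℕ) (R : ℝ) (P : ℤ[X]) (Q : ℚ_[l][X]), P.Monic ∧
      (∀ z : ℂ, (P.map (Int.castRingHom ℂ)).IsRoot z → ‖z‖ ^ 2 = R) ∧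
      Q.Monic ∧ Q.natDegree = m ∧ Q ∣ P.map (Int.castRingHom ℚ_[l]) ∧
      R ^ m = (p : ℝ) ^ (2 * u) ∧ u ≤ t ∧ (M.MumAt l p 𝔓 → 0 < m * (n - m) → u < t) ∧
      ((-1) ^ m * Q.coeff 0) * ((A x).det ^ (2 * n * E) * (p : ℚ_[l]) ^ (E * k * w * n * m)) =
        (p : ℚ_[l]) ^ t := by
  have hpK : (p : ℚ_[l]) ≠ 0 := by exact_mod_cast hp.ne_zero
  obtain ⟨hA1, hA2⟩ := bal_hom _ B A hs
  obtain ⟨⟨C, hC⟩, hA⟩ := hs
  by_cases hmum : M.MumAt l p 𝔓
  · refine ⟨E * (k * (m * n * (n - m))), 0, 1, (X - 1) ^ m, (X - 1) ^ m, (monic_X_sub_C 1).pow m,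
      ?_, (monic_X_sub_C 1).pow m, ?_, ?_, ?_, Nat.zero_le _, ?_, ?_⟩
    · intro z hz
      have h1 : (z - 1) ^ m = 0 := by simpa using hz
      have h2 : z - 1 = 0 := by
        rcases Nat.eq_zero_or_pos m with rfl | hm
        · simp at h1
        · exact pow_eq_zero_iff (by omega) |>.mp h1
      rw [sub_eq_zero.mp h2]
      simp
    · have h1 : ((X - 1 : ℚ_[l][X])) = X - Polynomial.C 1 := by simp
      rw [h1, natDegree_pow, natDegree_X_sub_C, mul_one]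
    · simp
    · simp
    · intro _ hmn
      have h1 : 0 < m := Nat.pos_of_mul_pos_right hmn
      have h2 : 0 < n - m := Nat.pos_of_mul_pos_left hmn
      positivity
    · obtain ⟨τ, hτ1, hτ2, hτ3, hτ4⟩ := hmum
      have h5 := hτ4 k x hk hx
      have h6 : mat (M.ρ l) x * mat (M.ρ l) τ = mat (M.ρ l) τ ^ (p ^ k) * mat (M.ρ l) x := by
        have h7 : M.ρ l x * M.ρ l τ = (M.ρ l τ) ^ (p ^ k) * M.ρ l x := by
          rw [← h5, map_mul, map_mul, map_inv, inv_mul_cancel_right]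
        rw [← map_mul, ← map_pow, ← map_mul]
        rw [← map_mul, ← map_pow, ← map_mul] at h7
        change Units.val (M.ρ l _) = Units.val (M.ρ l _)
        rw [h7]
      have h8 := lin ℚ_[l] n m (p ^ k) (by push_cast; exact pow_ne_zero _ hpK)
        (mat (M.ρ l) τ) (mat (M.ρ l) x) B C (A τ) (A x) h6 hτ2 hτ3 hC (hA τ) (hA x)
      have h9 := irm2_det M l p hp hpl h𝔓 k x hx
      have h10 : ((-1 : ℚ_[l]) ^ m * ((X - 1 : ℚ_[l][X]) ^ m).coeff 0) = 1 := by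
        rw [Polynomial.coeff_zero_eq_eval_zero]
        simp [← mul_pow]
      rw [h10, one_mul]
      have h11 : (A x).det ^ (2 * n * E) = ((mat (M.ρ l) x).det ^ (2 * m) *
          ((p ^ k : ℕ) : ℚ_[l]) ^ (m * n * (n - m))) ^ E := by
        rw [pow_mul, h8]
      rw [h11]
      push_cast
      set b := (mat (M.ρ l) x).det
      set q := (p : ℚ_[l])
      calc (b ^ (2 * m) * (q ^ k) ^ (m * n * (n - m))) ^ E * q ^ (E * k * w * n * m)
          = (b ^ 2 * q ^ (k * (w * n))) ^ (m * E) * q ^ (E * (k * (m * n * (n - m)))) := by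
            generalize n - m = c
            ring
        _ = _ := by rw [h9, one_pow, one_mul]
  · have hpure := hM.resolve_left hmum
    have hx' : CongPow 𝔓 (p ^ (k * (2 * n * E))) ((x ^ (2 * n * E) : Gal F)) := by
      rw [pow_mul]
      exact irm_congPow _ _ _ hx _
    obtain ⟨P, hP1, hP2, hP3⟩ := hpure (k * (2 * n * E)) (x ^ (2 * n * E))
      (Nat.mul_pos hk (Nat.mul_pos (Nat.mul_pos two_pos hn) hE)) hx'
    refine ⟨E * k * w * n * m, E * k * w * n * m, _, P, (A (x ^ (2 * n * E))⁻¹).charpoly, hP1, hP2,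
      Matrix.charpoly_monic _, ?_, ?_, ?_, le_rfl, fun h => absurd h hmum, ?_⟩
    · rw [Matrix.charpoly_natDegree_eq_dim, Fintype.card_fin]
    · exact (bal_dvd _ _ B C hC (hA _)).trans hP3
    · rw [← pow_mul]
      congr 1
      ring
    · have e : (-1 : ℚ_[l]) ^ m * ((A (x ^ (2 * n * E))⁻¹).charpoly).coeff 0 =
          (A (x ^ (2 * n * E))⁻¹).det := by
        rw [Matrix.det_eq_sign_charpoly_coeff, Fintype.card_fin]
      have h3 : (A (x ^ (2 * n * E))⁻¹).det * (A x).det ^ (2 * n * E) = 1 := by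
        rw [← Matrix.det_pow, ← irm_pow A hA1 hA2, ← Matrix.det_mul, ← hA2, inv_mul_cancel, hA1,
          Matrix.det_one]
      rw [e, ← mul_assoc, h3, one_mul]

lemma irm2_mixed (hPRO : ST_PRO) (lin : ST_LIN) (M : PMot F S n w h)
    {r : ℕ → ℕ} {x : ∀ p, Fin (r p) → Gal F} {k : ∀ p, Fin (r p) → ℕ}
    {𝔔 : ∀ p, Fin (r p) → Ideal (Zb F)} (hT : IsTri F r x k 𝔔) (l : ℕ) [Fact l.Prime] (p : ℕ)
    (hp : p.Prime) (hpl : p ≠ l) (hCov : Cover F p (r p) (𝔔 p))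
    (h1 : ∃ 𝔓 : Ideal (Zb F), Over p 𝔓 ∧ M.MumAt l p 𝔓)
    (h2 : ∀ 𝔓 : Ideal (Zb F), Over p 𝔓 → M.MumAt l p 𝔓 ∨ M.PureAt l p 𝔓) :
    IsIrr (mat (M.ρ l)) := by
  intro m B A hs
  have hmn := irr_le _ _ _ hs
  rcases Nat.eq_zero_or_pos m with hm0 | hm0
  · exact Or.inl hm0
  rcases Nat.eq_or_lt_of_le hmn with hmn' | hmn'
  · exact Or.inr hmn'
  exfalso
  obtain ⟨E, s, hE, h2s, hrel⟩ := irm_bal hPRO M hT l B A hs
  obtain ⟨hTr1, hTr2⟩ := hT.1 p hp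
  choose t u R P Q hP hR hQ hQd hQP hRm hut hlt hid using fun i =>
    irm2_place lin M l p hp hpl B A hs E hE (by omega) (hTr1 i).1 (k p i) (hTr1 i).2.1 (x p i)
      (hTr1 i).2.2 (h2 _ (hTr1 i).1)
  obtain ⟨𝔓₀, hO, hM0⟩ := h1
  obtain ⟨i₀, g, hg⟩ := hCov 𝔓₀ hO
  have hlt0 : u i₀ < t i₀ := hlt i₀ (irm2_conj M l p g hg hM0)
    (Nat.mul_pos hm0 (by omega))
  have hsum : ∑ i, u i < ∑ i, t i :=
    Finset.sum_lt_sum (fun i _ => hut i) ⟨i₀, Finset.mem_univ _, hlt0⟩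
  obtain ⟨D, hD, hD'⟩ := hPRO (r p) m 1 (p ^ (∑ i, t i)) R P hP hR (by
    rw [Finset.prod_congr rfl fun i _ => hRm i, Finset.prod_pow_eq_pow_sum, ← Finset.mul_sum]
    intro heq
    have h3 : p ^ (2 * ∑ i, u i) = p ^ (2 * ∑ i, t i) := by
      have : (p : ℝ) ^ (2 * ∑ i, u i) = (p : ℝ) ^ (2 * ∑ i, t i) := by
        push_cast at heq
        rw [one_pow, one_mul] at heq
        rw [heq, ← pow_mul, mul_comm]
      exact_mod_cast this
    have h4 := Nat.pow_right_injective hp.two_le h3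
    have h5 : 2 * ∑ i, u i = 2 * ∑ i, t i := h4
    omega)
  have hfin := hD' ℚ_[l] Q (fun i => ⟨hQ i, hQd i, hQP i⟩) ?_
  · exact hD (by exact_mod_cast hfin)
  · have h3 : ∏ i, (((-1) ^ m * (Q i).coeff 0) * ((A (x p i)).det ^ (2 * n * E) *
        (p : ℚ_[l]) ^ (E * k p i * w * n * m))) = (p : ℚ_[l]) ^ (∑ i, t i) := by
      rw [Finset.prod_congr rfl fun i _ => hid i, Finset.prod_pow_eq_pow_sum]
    rw [Finset.prod_mul_distrib] at h3
    rw [Finset.prod_mul_distrib (f := fun i => (A (x p i)).det ^ (2 * n * E)), Finset.prod_pow,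
      Finset.prod_pow_eq_pow_sum] at h3
    have h4 : ∑ i, E * k p i * w * n * m = 2 * s * n * E := by
      rw [h2s, ← hTr2, Finset.sum_mul, Finset.sum_mul, Finset.sum_mul, Finset.sum_mul]
      refine Finset.sum_congr rfl fun i _ => ?_
      ring
    have h5 := hrel p hp hpl
    rw [h4] at h3
    set α := ∏ i, (A (x p i)).det
    set q := (p : ℚ_[l])
    have h6 : α ^ (2 * n * E) * q ^ (2 * s * n * E) = ((α * q ^ s) ^ E) ^ (2 * n) := by ring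
    rw [h6, h5, one_pow, mul_one] at h3
    push_cast
    rw [one_mul]
    exact h3

end

theorem st_IRM2 (tri2 : ST_TRI2) (pro : ST_PRO) (lin : ST_LIN) : ST_IRM2 := by
  intro F _ _ S hS n w h M l _ p hp hM
  obtain ⟨r, x, k, 𝔔, hT, hCov⟩ := tri2 F
  rcases hM with ⟨hpl, h1, h2⟩ | ⟨rfl, hc⟩
  · exact irm2_mixed pro lin M hT l p hp hpl (hCov p hp) h1 h2
  · exact irm_l pro M hT _ hc

end MT
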