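import Mathlib

/-!
# GEN: the parts of degree one and minus one generate the symplectic and orthogonal Lie algebras
(helper92; split principal grading)
-/

set_option autoImplicit false
set_option maxHeartbeats 800000

namespace MT.Gen

open Matrix

variable {K : Type} [Field K] {N : ℕ}

/-- degree one -/
def up (N : ℕ) (s : ℕ → K) : Matrix (Fin (N + 1)) (Fin (N + 1)) K :=
  fun i j => if (i : ℕ) = (j : ℕ) + 1 then s j else 0

/-- degree minus one -/
def dn (N : ℕ) (s : ℕ → K) : Matrix (Fin (N + 1)) (Fin (N + 1)) K :=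
  fun i j => if (j : ℕ) = (i : ℕ) + 1 then s i else 0

/-- the standard elements of the symplectic / orthogonal Lie algebra -/
def Zm (i j : Fin (N + 1)) : Matrix (Fin (N + 1)) (Fin (N + 1)) K :=
  single i j 1 - (-1 : K) ^ ((i : ℕ) + j) • single (Fin.rev j) (Fin.rev i) 1

lemma single_mul (i j k l : Fin (N + 1)) :
    (single i j 1 : Matrix (Fin (N + 1)) (Fin (N + 1)) K) * single k l 1 =
      if j = k then single i l 1 else 0 := by
  split_ifs with h
  · subst h; rw [single_mul_single_same, one_mul]
  · exact single_mul_single_of_ne _ _ _ _ h _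

lemma sq_one (a : ℕ) : (-1 : K) ^ a * (-1) ^ a = 1 := by
  rw [← mul_pow]; simp

lemma pow_congr {a b : ℕ} (h : a % 2 = b % 2) : (-1 : K) ^ a = (-1) ^ b := by
  rw [← Nat.div_add_mod a 2, ← Nat.div_add_mod b 2, h]
  simp [pow_add, pow_mul]

/-- the basic bracket -/
lemma bracket (i m j : Fin (N + 1)) (hij : i ≠ j) :
    (Zm i m : Matrix (Fin (N + 1)) (Fin (N + 1)) K) * Zm m j - Zm m j * Zm i m =
      ((1 : K) - (-1) ^ N * ((if m = Fin.rev i then 1 else 0) + if m = Fin.rev j then 1 else 0)) •
        (Zm i j : Matrix (Fin (N + 1)) (Fin (N + 1)) K) := by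
  have hrij : Fin.rev i ≠ Fin.rev j := fun h => hij (Fin.rev_injective h)
  have e1 : (Zm i m : Matrix (Fin (N + 1)) (Fin (N + 1)) K) * Zm m j =
      single i j 1
        - (-1 : K) ^ ((m : ℕ) + j) • (if m = Fin.rev j then single i (Fin.rev m) 1 else 0)
        - (-1 : K) ^ ((i : ℕ) + m) • (if Fin.rev i = m then single (Fin.rev m) j 1 else 0) := by
    simp only [Zm, sub_mul, mul_sub, smul_mul_assoc, mul_smul_comm, single_mul, if_true,
      if_neg hrij, smul_zero, sub_zero]
    rw [sub_right_comm]
  have e2 : (Zm m j : Matrix (Fin (N + 1)) (Fin (N + 1)) K) * Zm i m =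
      - (-1 : K) ^ ((i : ℕ) + m) • (if j = Fin.rev m then single m (Fin.rev i) 1 else 0)
        - (-1 : K) ^ ((m : ℕ) + j) • (if Fin.rev m = i then single (Fin.rev j) m 1 else 0)
        + ((-1 : K) ^ ((m : ℕ) + j) * (-1 : K) ^ ((i : ℕ) + m)) •
          single (Fin.rev j) (Fin.rev i) 1 := by
    simp only [Zm, sub_mul, mul_sub, smul_mul_assoc, mul_smul_comm, single_mul, if_true,
      if_neg hij.symm, zero_sub, smul_sub, smul_smul, neg_smul]
    rw [mul_comm ((-1 : K) ^ ((i : ℕ) + m))]
    abel
  have hs : (-1 : K) ^ ((m : ℕ) + j) * (-1 : K) ^ ((i : ℕ) + m) = (-1) ^ ((i : ℕ) + j) := by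
    rw [← pow_add]; apply pow_congr; omega
  have r1 : (Fin.rev i = m) ↔ (m = Fin.rev i) := eq_comm
  have r2 : (j = Fin.rev m) ↔ (m = Fin.rev j) := by
    constructor
    · rintro rfl; rw [Fin.rev_rev]
    · rintro rfl; rw [Fin.rev_rev]
  have r3 : (Fin.rev m = i) ↔ (m = Fin.rev i) := by
    constructor
    · rintro rfl; rw [Fin.rev_rev]
    · rintro rfl; rw [Fin.rev_rev]
  rw [e1, e2, hs]
  simp only [r1, r2, r3]
  by_cases h1 : m = Fin.rev i
  · have h2 : m ≠ Fin.rev j := fun h => hrij (h1.symm.trans h)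
    simp only [if_pos h1, if_neg h2, smul_zero, add_zero, sub_zero, mul_one, zero_sub]
    subst h1
    rw [Fin.rev_rev, Zm]
    have a1 : (-1 : K) ^ ((i : ℕ) + (Fin.rev i : Fin (N + 1))) = (-1) ^ N := by
      apply pow_congr; rw [Fin.val_rev]; have := i.2; congr 1; omega
    have a2 : (-1 : K) ^ (((Fin.rev i : Fin (N + 1)) : ℕ) + j) = (-1) ^ N * (-1) ^ ((i : ℕ) + j) := by
      rw [← pow_add]; apply pow_congr; rw [Fin.val_rev]; have := i.2; omega
    rw [a1, a2]
    module
  · by_cases h2 : m = Fin.rev j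
    · simp only [if_neg h1, if_pos h2, smul_zero, zero_add, sub_zero, mul_one]
      subst h2
      rw [Fin.rev_rev, Zm]
      have a1 : (-1 : K) ^ (((Fin.rev j : Fin (N + 1)) : ℕ) + j) = (-1) ^ N := by
        apply pow_congr; rw [Fin.val_rev]; have := j.2; congr 1; omega
      have a2 : (-1 : K) ^ ((i : ℕ) + (Fin.rev j : Fin (N + 1))) =
          (-1) ^ N * (-1) ^ ((i : ℕ) + j) := by
        rw [← pow_add]; apply pow_congr; rw [Fin.val_rev]; have := j.2; omega
      rw [a1, a2]
      module
    · simp only [if_neg h1, if_neg h2, smul_zero, add_zero, sub_zero, mul_zero, zero_add]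
      rw [Zm]
      module

variable [CharZero K]

/-- a good intermediate index -/
lemma exists_mid (i j : Fin (N + 1)) (h : (i : ℕ) + 2 ≤ j ∨ (j : ℕ) + 2 ≤ i) :
    ∃ m : Fin (N + 1), ((i : ℕ) < m ∧ (m : ℕ) < j ∨ (j : ℕ) < m ∧ (m : ℕ) < i) ∧
      (1 - (-1 : K) ^ N * ((if m = Fin.rev i then 1 else 0) + if m = Fin.rev j then 1 else 0)) ≠ 0
      := by
  rcases Nat.even_or_odd N with hN | hN
  · obtain ⟨M, hM⟩ := hN
    have key : ∃ m : Fin (N + 1), ((i : ℕ) < m ∧ (m : ℕ) < j ∨ (j : ℕ) < m ∧ (m : ℕ) < i) ∧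
        (m : ℕ) ≠ N - i ∧ (m : ℕ) ≠ N - j := by
      have hi := i.2
      have hj := j.2
      by_cases hc : (i : ℕ) < j
      · by_cases h1 : (i : ℕ) + 1 = N - i ∨ (i : ℕ) + 1 = N - j
        · refine ⟨⟨(i : ℕ) + 2, by omega⟩, ?_, ?_, ?_⟩ <;> simp only [] <;> omega
        · refine ⟨⟨(i : ℕ) + 1, by omega⟩, ?_, ?_, ?_⟩ <;> simp only [] <;> omega
      · by_cases h1 : (j : ℕ) + 1 = N - i ∨ (j : ℕ) + 1 = N - j
        · refine ⟨⟨(j : ℕ) + 2, by omega⟩, ?_, ?_, ?_⟩ <;> simp only [] <;> omega
        · refine ⟨⟨(j : ℕ) + 1, by omega⟩, ?_, ?_, ?_⟩ <;> simp only [] <;> omega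
    obtain ⟨m, hm1, hm2, hm3⟩ := key
    refine ⟨m, hm1, ?_⟩
    have h2 : m ≠ Fin.rev i := by
      intro h; apply hm2; rw [h, Fin.val_rev]; omega
    have h3 : m ≠ Fin.rev j := by
      intro h; apply hm3; rw [h, Fin.val_rev]; omega
    rw [if_neg h2, if_neg h3]
    simp
  · have hp : (-1 : K) ^ N = -1 := hN.neg_one_pow
    have hex : ∃ m : Fin (N + 1), ((i : ℕ) < m ∧ (m : ℕ) < j ∨ (j : ℕ) < m ∧ (m : ℕ) < i) := by
      have hi := i.2
      have hj := j.2
      by_cases hc : (i : ℕ) < j
      · exact ⟨⟨(i : ℕ) + 1, by omega⟩, by simp only []; omega⟩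
      · exact ⟨⟨(j : ℕ) + 1, by omega⟩, by simp only []; omega⟩
    obtain ⟨m, hm⟩ := hex
    refine ⟨m, hm, ?_⟩
    rw [hp]
    have hc : (1 - (-1 : K) * ((if m = Fin.rev i then 1 else 0) + if m = Fin.rev j then 1 else 0))
        = (((1 + ((if m = Fin.rev i then 1 else 0) + if m = Fin.rev j then 1 else 0) : ℕ)) : K) := by
      push_cast
      ring
    rw [hc]
    exact Nat.cast_ne_zero.mpr (Nat.add_pos_left Nat.one_pos _).ne'

/-- GEN -/
theorem gen (g : Submodule K (Matrix (Fin (N + 1)) (Fin (N + 1)) K))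
    (hbr : ∀ X ∈ g, ∀ Y ∈ g, X * Y - Y * X ∈ g)
    (hup : ∀ s : ℕ → K, (∀ j < N, s (N - 1 - j) = s j) → up N s ∈ g)
    (hdn : ∀ s : ℕ → K, (∀ j < N, s (N - 1 - j) = s j) → dn N s ∈ g)
    (X : Matrix (Fin (N + 1)) (Fin (N + 1)) K)
    (hX : ∀ i j, X i j = -((-1) ^ ((i : ℕ) + j) * X (Fin.rev j) (Fin.rev i))) : X ∈ g := by
  -- degree one and minus one
  have h1 : ∀ i j : Fin (N + 1), (i : ℕ) = j + 1 → (Zm i j : Matrix _ _ K) ∈ g := by
    intro i j hij
    have hi := i.2
    have e : (Zm i j : Matrix (Fin (N + 1)) (Fin (N + 1)) K) =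
        up N (fun k => (if k = (j : ℕ) then 1 else 0) + if k = N - 1 - j then 1 else 0) := by
      have hs : (-1 : K) ^ ((i : ℕ) + j) = -1 := by
        have : (i : ℕ) + j = 2 * j + 1 := by omega
        rw [this]; simp [pow_add, pow_mul]
      rw [Zm, hs, neg_one_smul, sub_neg_eq_add]
      ext a b
      rw [Matrix.add_apply, single_apply, single_apply, up]
      simp only [Fin.ext_iff, Fin.val_rev]
      have ha := a.2
      have hb := b.2
      by_cases hab : (a : ℕ) = b + 1
      · rw [if_pos hab]
        have p1 : ((i : ℕ) = a ∧ (j : ℕ) = b) ↔ (b : ℕ) = j := by omega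
        have p2 : (N + 1 - ((j : ℕ) + 1) = a ∧ N + 1 - ((i : ℕ) + 1) = b) ↔
          (b : ℕ) = N - 1 - j := by omega
        simp only [p1, p2]
      · rw [if_neg hab]
        have p1 : ¬ ((i : ℕ) = a ∧ (j : ℕ) = b) := by omega
        have p2 : ¬ (N + 1 - ((j : ℕ) + 1) = a ∧ N + 1 - ((i : ℕ) + 1) = b) := by omega
        rw [if_neg p1, if_neg p2, add_zero]
    rw [e]
    apply hup
    intro k hk
    have p1 : (N - 1 - k = (j : ℕ)) ↔ k = N - 1 - j := by omega
    have p2 : (N - 1 - k = N - 1 - j) ↔ k = j := by omega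
    simp only [p1, p2]
    exact add_comm _ _
  have h2 : ∀ i j : Fin (N + 1), (j : ℕ) = i + 1 → (Zm i j : Matrix _ _ K) ∈ g := by
    intro i j hij
    have hj := j.2
    have e : (Zm i j : Matrix (Fin (N + 1)) (Fin (N + 1)) K) =
        dn N (fun k => (if k = (i : ℕ) then 1 else 0) + if k = N - 1 - i then 1 else 0) := by
      have hs : (-1 : K) ^ ((i : ℕ) + j) = -1 := by
        have : (i : ℕ) + j = 2 * i + 1 := by omega
        rw [this]; simp [pow_add, pow_mul]
      rw [Zm, hs, neg_one_smul, sub_neg_eq_add]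
      ext a b
      rw [Matrix.add_apply, single_apply, single_apply, dn]
      simp only [Fin.ext_iff, Fin.val_rev]
      have ha := a.2
      have hb := b.2
      by_cases hab : (b : ℕ) = a + 1
      · rw [if_pos hab]
        have p1 : ((i : ℕ) = a ∧ (j : ℕ) = b) ↔ (a : ℕ) = i := by omega
        have p2 : (N + 1 - ((j : ℕ) + 1) = a ∧ N + 1 - ((i : ℕ) + 1) = b) ↔
          (a : ℕ) = N - 1 - i := by omega
        simp only [p1, p2]
      · rw [if_neg hab]
        have p1 : ¬ ((i : ℕ) = a ∧ (j : ℕ) = b) := by omega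
        have p2 : ¬ (N + 1 - ((j : ℕ) + 1) = a ∧ N + 1 - ((i : ℕ) + 1) = b) := by omega
        rw [if_neg p1, if_neg p2, add_zero]
    rw [e]
    apply hdn
    intro k hk
    have p1 : (N - 1 - k = (i : ℕ)) ↔ k = N - 1 - i := by omega
    have p2 : (N - 1 - k = N - 1 - i) ↔ k = i := by omega
    simp only [p1, p2]
    exact add_comm _ _
  -- nonzero degrees
  have h3 : ∀ d : ℕ, 1 ≤ d → ∀ i j : Fin (N + 1), ((i : ℕ) + d = j ∨ (j : ℕ) + d = i) →
      (Zm i j : Matrix _ _ K) ∈ g := by
    intro d
    induction d using Nat.strong_induction_on with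
    | _ d ih =>
      intro hd i j hij
      by_cases hd1 : d = 1
      · subst hd1
        rcases hij with h | h
        · exact h2 i j h.symm
        · exact h1 i j h.symm
      · obtain ⟨m, hm, hc⟩ := exists_mid (K := K) i j (by omega)
        have hne : i ≠ j := by
          intro h; subst h; omega
        have hb := bracket (K := K) i m j hne
        have m1 : (Zm i m : Matrix _ _ K) ∈ g := by
          by_cases hc' : (i : ℕ) < m
          · exact ih (m - i) (by omega) (by omega) i m (by omega)
          · exact ih (i - m) (by omega) (by omega) i m (by omega)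
        have m2 : (Zm m j : Matrix _ _ K) ∈ g := by
          by_cases hc' : (m : ℕ) < j
          · exact ih (j - m) (by omega) (by omega) m j (by omega)
          · exact ih (m - j) (by omega) (by omega) m j (by omega)
        have m3 := hbr _ m1 _ m2
        rw [hb] at m3
        exact (Submodule.smul_mem_iff g hc).mp m3
  -- degree zero
  have h0 : ∀ d : ℕ → K, (∀ j ≤ N, d (N - j) = -d j) →
      (diagonal (fun i : Fin (N + 1) => d i) : Matrix _ _ K) ∈ g := by
    intro d hd
    have hsum : ∑ k ∈ Finset.range (N + 1), d k = 0 := by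
      have hr : ∑ k ∈ Finset.range (N + 1), d k = ∑ k ∈ Finset.range (N + 1), d (N - k) := by
        rw [← Finset.sum_range_reflect]
        refine Finset.sum_congr rfl fun k _ => ?_
        rw [Nat.add_sub_cancel]
      have hr2 : ∑ k ∈ Finset.range (N + 1), d (N - k) = -∑ k ∈ Finset.range (N + 1), d k := by
        rw [← Finset.sum_neg_distrib]
        exact Finset.sum_congr rfl fun k hk => hd k (by rw [Finset.mem_range] at hk; omega)
      rw [hr2] at hr
      have h2' : (2 : K) * ∑ k ∈ Finset.range (N + 1), d k = 0 := by linear_combination hr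
      exact (mul_eq_zero.mp h2').resolve_left two_ne_zero
    have hr : dn N (fun j => -∑ k ∈ Finset.range (j + 1), d k) ∈ g := by
      apply hdn
      intro j hj
      have hsplit : ∑ k ∈ Finset.range (N - 1 - j + 1), d k +
          ∑ k ∈ Finset.range (j + 1), d (N - k) = 0 := by
        rw [← hsum]
        have : N + 1 = (N - 1 - j + 1) + (j + 1) := by omega
        conv_rhs => rw [this, Finset.sum_range_add]
        congr 1
        conv_rhs => rw [← Finset.sum_range_reflect]
        refine Finset.sum_congr rfl fun k hk => ?_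
        rw [Finset.mem_range] at hk
        congr 1
        omega
      have hneg : ∑ k ∈ Finset.range (j + 1), d (N - k) = -∑ k ∈ Finset.range (j + 1), d k := by
        rw [← Finset.sum_neg_distrib]
        exact Finset.sum_congr rfl fun k hk => hd k (by rw [Finset.mem_range] at hk; omega)
      rw [hneg] at hsplit
      linear_combination -hsplit
    have hu : (up N (fun _ => (1 : K))) ∈ g := hup _ (fun _ _ => rfl)
    have hb := hbr _ hu _ hr
    convert hb using 1
    ext a b
    rw [Matrix.sub_apply, mul_apply, mul_apply]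
    simp only [up, dn]
    by_cases hab : a = b
    · subst hab
      rw [diagonal_apply_eq]
      have e1 : ∑ j : Fin (N + 1), ((if (a : ℕ) = j + 1 then (1 : K) else 0) *
          if (a : ℕ) = j + 1 then -∑ k ∈ Finset.range ((j : ℕ) + 1), d k else 0) =
          if (a : ℕ) = 0 then 0 else -∑ k ∈ Finset.range (a : ℕ), d k := by
        split_ifs with ha0
        · refine Finset.sum_eq_zero fun j _ => ?_
          rw [if_neg (by omega), zero_mul]
        · have ha := a.2
          rw [Finset.sum_eq_single (⟨(a : ℕ) - 1, by omega⟩ : Fin (N + 1))]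
          · have : (a : ℕ) = (a : ℕ) - 1 + 1 := by omega
            simp only [← this, if_true, one_mul]
          · intro j _ hj
            rw [if_neg, zero_mul]
            intro h
            exact hj (Fin.ext (by simp only []; omega))
          · intro h; exact absurd (Finset.mem_univ _) h
      have e2 : ∑ j : Fin (N + 1), ((if (j : ℕ) = a + 1 then
          -∑ k ∈ Finset.range ((a : ℕ) + 1), d k else 0) *
          if (j : ℕ) = a + 1 then (1 : K) else 0) =
          -∑ k ∈ Finset.range ((a : ℕ) + 1), d k := by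
        by_cases haN : (a : ℕ) = N
        · rw [haN, hsum, neg_zero]
          refine Finset.sum_eq_zero fun j _ => ?_
          have := j.2
          rw [if_neg (by omega), zero_mul]
        · have ha := a.2
          rw [Finset.sum_eq_single (⟨(a : ℕ) + 1, by omega⟩ : Fin (N + 1))]
          · simp
          · intro j _ hj
            rw [if_neg, zero_mul]
            intro h
            exact hj (Fin.ext (by simp only []; omega))
          · intro h; exact absurd (Finset.mem_univ _) h
      rw [e1, e2]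
      split_ifs with ha0
      · rw [ha0]; simp
      · rw [Finset.sum_range_succ]; ring
    · rw [diagonal_apply_ne _ hab]
      have hab' : (a : ℕ) ≠ b := fun h => hab (Fin.ext h)
      rw [Finset.sum_eq_zero, Finset.sum_eq_zero, sub_zero]
      · intro j _
        by_cases c1 : (j : ℕ) = a + 1
        · rw [if_neg (show ¬ (j : ℕ) = b + 1 by omega), mul_zero]
        · rw [if_neg c1, zero_mul]
      · intro j _
        by_cases c1 : (a : ℕ) = j + 1
        · rw [if_neg (show ¬ (b : ℕ) = j + 1 by omega), mul_zero]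
        · rw [if_neg c1, zero_mul]
  -- all Zm
  have h4 : ∀ i j : Fin (N + 1), (Zm i j : Matrix _ _ K) ∈ g := by
    intro i j
    by_cases hij : i = j
    · subst hij
      have e : (Zm i i : Matrix (Fin (N + 1)) (Fin (N + 1)) K) =
          diagonal (fun k : Fin (N + 1) =>
            (fun k : ℕ => (if k = (i : ℕ) then (1 : K) else 0) - if k = N - i then 1 else 0) k) := by
        rw [Zm]
        have : (-1 : K) ^ ((i : ℕ) + i) = 1 := by rw [← two_mul, pow_mul]; simp
        rw [this, one_smul]
        have hi := i.2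
        ext a b
        rw [Matrix.sub_apply, single_apply, single_apply, diagonal_apply]
        simp only [Fin.ext_iff, Fin.val_rev]
        by_cases hab : (a : ℕ) = b
        · rw [if_pos hab]
          have p1 : ((i : ℕ) = a ∧ (i : ℕ) = b) ↔ (a : ℕ) = i := by omega
          have p2 : (N + 1 - ((i : ℕ) + 1) = a ∧ N + 1 - ((i : ℕ) + 1) = b) ↔
            (a : ℕ) = N - i := by omega
          simp only [p1, p2]
        · rw [if_neg hab]
          have p1 : ¬ ((i : ℕ) = a ∧ (i : ℕ) = b) := by omega
          have p2 : ¬ (N + 1 - ((i : ℕ) + 1) = a ∧ N + 1 - ((i : ℕ) + 1) = b) := by omega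
          rw [if_neg p1, if_neg p2, sub_zero]
      rw [e]
      refine h0 (fun k : ℕ => (if k = (i : ℕ) then (1 : K) else 0) - if k = N - i then 1 else 0) ?_
      intro k hk
      have hi := i.2
      have p1 : (N - k = (i : ℕ)) ↔ k = N - i := by omega
      have p2 : (N - k = N - i) ↔ k = i := by omega
      simp only [p1, p2]
      ring
    · have hij' : (i : ℕ) ≠ j := fun h => hij (Fin.ext h)
      by_cases hc : (i : ℕ) < j
      · exact h3 (j - i) (by omega) i j (by omega)
      · exact h3 (i - j) (by omega) i j (by omega)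
  -- the decomposition
  have h5 : (2 : K) • X = ∑ i, ∑ j, X i j • (Zm i j : Matrix (Fin (N + 1)) (Fin (N + 1)) K) := by
    ext a b
    rw [Matrix.sum_apply]
    simp only [Matrix.sum_apply, Matrix.smul_apply, Zm, Matrix.sub_apply, single_apply, smul_eq_mul]
    simp only [mul_sub, Finset.sum_sub_distrib]
    have e1 : ∑ i, ∑ j, X i j * (if i = a ∧ j = b then 1 else 0) = X a b := by
      rw [Finset.sum_eq_single a, Finset.sum_eq_single b]
      · simp
      · intro j _ hj; rw [if_neg (by tauto), mul_zero]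
      · intro h; exact absurd (Finset.mem_univ _) h
      · intro i _ hi
        exact Finset.sum_eq_zero fun j _ => by rw [if_neg (by tauto), mul_zero]
      · intro h; exact absurd (Finset.mem_univ _) h
    have e2 : ∑ i, ∑ j, X i j * ((-1 : K) ^ ((i : ℕ) + j) *
        (if Fin.rev j = a ∧ Fin.rev i = b then 1 else 0)) = - X a b := by
      rw [Finset.sum_eq_single (Fin.rev b), Finset.sum_eq_single (Fin.rev a)]
      · rw [if_pos ⟨Fin.rev_rev a, Fin.rev_rev b⟩, mul_one, hX a b]
        have : (-1 : K) ^ (((Fin.rev b : Fin (N + 1)) : ℕ) + (Fin.rev a : Fin (N + 1))) =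
            (-1) ^ ((a : ℕ) + b) := by
          apply pow_congr
          rw [Fin.val_rev, Fin.val_rev]
          have := a.2
          have := b.2
          omega
        rw [this]; ring
      · intro j _ hj
        rw [if_neg, mul_zero, mul_zero]
        rintro ⟨h, -⟩
        exact hj (by rw [← h, Fin.rev_rev])
      · intro h; exact absurd (Finset.mem_univ _) h
      · intro i _ hi
        refine Finset.sum_eq_zero fun j _ => ?_
        rw [if_neg, mul_zero, mul_zero]
        rintro ⟨-, h⟩
        exact hi (by rw [← h, Fin.rev_rev])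
      · intro h; exact absurd (Finset.mem_univ _) h
    rw [e1, e2]
    ring
  have h6 : (2 : K) • X ∈ g := by
    rw [h5]
    exact Submodule.sum_mem _ fun i _ => Submodule.sum_mem _ fun j _ =>
      Submodule.smul_mem _ _ (h4 i j)
  exact (Submodule.smul_mem_iff g two_ne_zero).mp h6

end MT.Gen
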