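import Pool.Agent.Helper92.MT.GEN

/-!
# AP: the eigenvalues of the elements of `span(1, E, H, F)` are arithmetic progressions (helper92)
-/

set_option autoImplicit false
set_option maxHeartbeats 800000

namespace MT.Gen

open Matrix Polynomial

variable {K : Type} [Field K] {N : ℕ}

lemma mul_up (M : Matrix (Fin (N + 1)) (Fin (N + 1)) K) (s : ℕ → K) (i j : Fin (N + 1)) :
    (M * up N s) i j = if h : (j : ℕ) < N then M i ⟨j + 1, by omega⟩ * s j else 0 := by
  rw [mul_apply]
  simp only [up]
  split_ifs with h
  · rw [Finset.sum_eq_single (⟨(j : ℕ) + 1, by omega⟩ : Fin (N + 1))]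
    · simp
    · intro k _ hk
      rw [if_neg, mul_zero]
      intro h'
      exact hk (Fin.ext (by simp only []; omega))
    · intro h'; exact absurd (Finset.mem_univ _) h'
  · refine Finset.sum_eq_zero fun k _ => ?_
    have := k.2
    rw [if_neg (by omega), mul_zero]

lemma up_mul (M : Matrix (Fin (N + 1)) (Fin (N + 1)) K) (s : ℕ → K) (i j : Fin (N + 1)) :
    (up N s * M) i j = if h : 0 < (i : ℕ) then s (i - 1) * M ⟨i - 1, by omega⟩ j else 0 := by
  rw [mul_apply]
  simp only [up]
  have hi := i.2
  split_ifs with h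
  · rw [Finset.sum_eq_single (⟨(i : ℕ) - 1, by omega⟩ : Fin (N + 1))]
    · have h2 : (i : ℕ) = (i : ℕ) - 1 + 1 := by omega
      rw [if_pos h2]
    · intro k _ hk
      rw [if_neg, zero_mul]
      intro h'
      exact hk (Fin.ext (by simp only []; omega))
    · intro h'; exact absurd (Finset.mem_univ _) h'
  · refine Finset.sum_eq_zero fun k _ => ?_
    rw [if_neg (by omega), zero_mul]

lemma mul_dn (M : Matrix (Fin (N + 1)) (Fin (N + 1)) K) (s : ℕ → K) (i j : Fin (N + 1)) :
    (M * dn N s) i j = if h : 0 < (j : ℕ) then M i ⟨j - 1, by omega⟩ * s (j - 1) else 0 := by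
  rw [mul_apply]
  simp only [dn]
  have hj := j.2
  split_ifs with h
  · rw [Finset.sum_eq_single (⟨(j : ℕ) - 1, by omega⟩ : Fin (N + 1))]
    · have h2 : (j : ℕ) = (j : ℕ) - 1 + 1 := by omega
      rw [if_pos h2]
    · intro k _ hk
      rw [if_neg, mul_zero]
      intro h'
      exact hk (Fin.ext (by simp only []; omega))
    · intro h'; exact absurd (Finset.mem_univ _) h'
  · refine Finset.sum_eq_zero fun k _ => ?_
    rw [if_neg (by omega), mul_zero]

lemma dn_mul (M : Matrix (Fin (N + 1)) (Fin (N + 1)) K) (s : ℕ → K) (i j : Fin (N + 1)) :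
    (dn N s * M) i j = if h : (i : ℕ) < N then s i * M ⟨i + 1, by omega⟩ j else 0 := by
  rw [mul_apply]
  simp only [dn]
  split_ifs with h
  · rw [Finset.sum_eq_single (⟨(i : ℕ) + 1, by omega⟩ : Fin (N + 1))]
    · simp
    · intro k _ hk
      rw [if_neg, zero_mul]
      intro h'
      exact hk (Fin.ext (by simp only []; omega))
    · intro h'; exact absurd (Finset.mem_univ _) h'
  · refine Finset.sum_eq_zero fun k _ => ?_
    have := k.2
    rw [if_neg (by omega), zero_mul]

/-- the standard triple of the symmetric power of degree `N` -/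
def eE (K : Type) [Field K] (N : ℕ) : Matrix (Fin (N + 1)) (Fin (N + 1)) K := up N (fun _ => 1)

/-- the standard triple of the symmetric power of degree `N` -/
def eF (K : Type) [Field K] (N : ℕ) : Matrix (Fin (N + 1)) (Fin (N + 1)) K :=
  dn N (fun j => ((j : K) + 1) * ((N : K) - j))

/-- the standard triple of the symmetric power of degree `N` -/
def eH (K : Type) [Field K] (N : ℕ) : Matrix (Fin (N + 1)) (Fin (N + 1)) K :=
  diagonal (fun j => 2 * ((j : ℕ) : K) - N)

/-- the exponential of `t E` -/
def eU (N : ℕ) (t : K) : Matrix (Fin (N + 1)) (Fin (N + 1)) K :=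
  fun i j => if (j : ℕ) ≤ i then t ^ ((i : ℕ) - j) / (((i : ℕ) - j).factorial : K) else 0

variable [CharZero K]

lemma eU_rec (t : K) (k : ℕ) : ((k : K) + 1) * (t ^ (k + 1) / ((k + 1).factorial : K)) =
    t * (t ^ k / (k.factorial : K)) := by
  have h1 : ((k : K) + 1) ≠ 0 := by exact_mod_cast Nat.succ_ne_zero k
  have h2 : ((k.factorial : ℕ) : K) ≠ 0 := by exact_mod_cast Nat.factorial_ne_zero k
  rw [Nat.factorial_succ]
  push_cast
  field_simp
  ring

omit [CharZero K] in
lemma eU_E (t : K) : eU N t * eE K N = eE K N * eU N t := by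
  ext i j
  have hi := i.2
  have hj := j.2
  rw [eE, mul_up, up_mul]
  simp only [eU]
  by_cases h : (j : ℕ) + 1 ≤ i
  · rw [dif_pos (by omega), dif_pos (by omega), if_pos h, if_pos (by omega), mul_one, one_mul]
    have : (i : ℕ) - (j + 1) = (i : ℕ) - 1 - j := by omega
    rw [this]
  · rw [if_neg h]
    have h2 : (if h' : 0 < (i : ℕ) then (1 : K) * (if (j : ℕ) ≤ (i : ℕ) - 1 then
        t ^ ((i : ℕ) - 1 - j) / (((i : ℕ) - 1 - j).factorial : K) else 0) else 0) = 0 := by
      split_ifs with h1 h2
      · omega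
      · simp
      · rfl
    rw [h2]
    simp

lemma eU_H (t : K) :
    eU N t * eH K N = eH K N * eU N t - (2 * t) • (eE K N * eU N t) := by
  ext i j
  have hi := i.2
  have hj := j.2
  rw [Matrix.sub_apply, Matrix.smul_apply, eH, mul_diagonal, diagonal_mul, eE, up_mul, smul_eq_mul]
  simp only [eU]
  by_cases h : (j : ℕ) + 1 ≤ i
  · obtain ⟨k, hk⟩ : ∃ k : ℕ, (i : ℕ) = j + (k + 1) := ⟨i - j - 1, by omega⟩
    rw [dif_pos (by omega), if_pos (by omega), if_pos (by omega)]
    have e1 : (i : ℕ) - j = k + 1 := by omega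
    have e2 : (i : ℕ) - 1 - j = k := by omega
    have e3 : ((i : ℕ) : K) = j + (k + 1) := by rw [hk]; push_cast; ring
    rw [e1, e2, e3]
    have := eU_rec t k
    linear_combination (-2 : K) * this
  · have h2 : (if h' : 0 < (i : ℕ) then (1 : K) * (if (j : ℕ) ≤ (i : ℕ) - 1 then
        t ^ ((i : ℕ) - 1 - j) / (((i : ℕ) - 1 - j).factorial : K) else 0) else 0) = 0 := by
      split_ifs with h1 h2
      · omega
      · simp
      · rfl
    rw [h2]
    by_cases h3 : (j : ℕ) = i
    · rw [if_pos (by omega), h3]; ring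
    · rw [if_neg (by omega)]; ring

lemma eU_F (t : K) :
    eU N t * eF K N = eF K N * eU N t + t • (eH K N * eU N t) - (t ^ 2) • (eE K N * eU N t) := by
  ext i j
  have hi := i.2
  have hj := j.2
  rw [Matrix.sub_apply, Matrix.add_apply, Matrix.smul_apply, Matrix.smul_apply, eH, diagonal_mul,
    eE, up_mul, eF, mul_dn, dn_mul, smul_eq_mul, smul_eq_mul]
  simp only [eU]
  by_cases h : (j : ℕ) ≤ i
  · obtain ⟨k, hk⟩ : ∃ k : ℕ, (i : ℕ) = j + k := ⟨i - j, by omega⟩
    have e3 : ((i : ℕ) : K) = j + k := by rw [hk]; push_cast; ring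
    have f1 : (if h' : 0 < (j : ℕ) then (if (j : ℕ) - 1 ≤ i then
        t ^ ((i : ℕ) - (j - 1)) / (((i : ℕ) - (j - 1)).factorial : K) else 0) *
        ((((j - 1 : ℕ) : K) + 1) * ((N : K) - ((j - 1 : ℕ) : K))) else 0) =
        t ^ (k + 1) / ((k + 1).factorial : K) * (j * ((N : K) - j + 1)) := by
      split_ifs with h1 h2
      · have : (i : ℕ) - (j - 1) = k + 1 := by omega
        rw [this, Nat.cast_sub (by omega : 1 ≤ (j : ℕ))]
        push_cast; ring
      · omega
      · have : (j : ℕ) = 0 := by omega
        rw [this]; simp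
    have f2 : (if h' : (i : ℕ) < N then (((i : ℕ) : K) + 1) * ((N : K) - i) *
        (if (j : ℕ) ≤ i + 1 then
          t ^ ((i : ℕ) + 1 - j) / (((i : ℕ) + 1 - j).factorial : K) else 0) else 0) =
        (j + k + 1) * ((N : K) - (j + k)) * (t ^ (k + 1) / ((k + 1).factorial : K)) := by
      split_ifs with h1 h2
      · have : (i : ℕ) + 1 - j = k + 1 := by omega
        rw [this, e3]
      · omega
      · have : (N : K) = j + k := by rw [← e3]; congr 1; omega
        rw [this]; ring
    have f3 : (if h' : 0 < (i : ℕ) then (1 : K) * (if (j : ℕ) ≤ (i : ℕ) - 1 then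
        t ^ ((i : ℕ) - 1 - j) / (((i : ℕ) - 1 - j).factorial : K) else 0) else 0) * (t ^ 2) =
        k * (k + 1) * (t ^ (k + 1) / ((k + 1).factorial : K)) := by
      by_cases hk0 : k = 0
      · subst hk0
        have : (if h' : 0 < (i : ℕ) then (1 : K) * (if (j : ℕ) ≤ (i : ℕ) - 1 then
            t ^ ((i : ℕ) - 1 - j) / (((i : ℕ) - 1 - j).factorial : K) else 0) else 0) = 0 := by
          split_ifs with h1 h2
          · omega
          · simp
          · rfl
        rw [this]; simp
      · obtain ⟨m, rfl⟩ : ∃ m, k = m + 1 := ⟨k - 1, by omega⟩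
        rw [dif_pos (by omega), if_pos (by omega)]
        have : (i : ℕ) - 1 - j = m := by omega
        rw [this]
        have r1 := eU_rec t m
        have r2 := eU_rec t (m + 1)
        push_cast at r1 r2 ⊢
        linear_combination (-t) * r1 - ((m : K) + 1) * r2
    have f4 : (if (j : ℕ) ≤ i then
        t ^ ((i : ℕ) - j) / (((i : ℕ) - j).factorial : K) else 0) * t =
        (k + 1) * (t ^ (k + 1) / ((k + 1).factorial : K)) := by
      rw [if_pos h]
      have : (i : ℕ) - j = k := by omega
      rw [this, eU_rec]; ring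
    rw [f1, f2, e3]
    linear_combination (2 * ((j : K) + k) - N) * (-f4) + f3
  · by_cases h3 : (j : ℕ) = i + 1
    · rw [dif_pos (by omega), dif_pos (by omega), if_pos (by omega), if_pos (by omega),
        if_neg (by omega)]
      have e1 : (i : ℕ) - (j - 1) = 0 := by omega
      have e2 : (i : ℕ) + 1 - j = 0 := by omega
      have e3 : ((j : ℕ) - 1 : ℕ) = i := by omega
      rw [e1, e2, e3]
      have : (if h' : 0 < (i : ℕ) then (1 : K) * (if (j : ℕ) ≤ (i : ℕ) - 1 then
            t ^ ((i : ℕ) - 1 - j) / (((i : ℕ) - 1 - j).factorial : K) else 0) else 0) = 0 := by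
          split_ifs with h1 h2
          · omega
          · simp
          · rfl
      rw [this]
      simp
    · rw [dif_pos (by omega), if_neg (by omega), if_neg (by omega)]
      have g1 : (if h' : 0 < (i : ℕ) then (1 : K) * (if (j : ℕ) ≤ (i : ℕ) - 1 then
            t ^ ((i : ℕ) - 1 - j) / (((i : ℕ) - 1 - j).factorial : K) else 0) else 0) = 0 := by
          split_ifs with h1 h2
          · omega
          · simp
          · rfl
      rw [g1, if_neg h]
      simp

lemma eU_det (t : K) : (eU N t).det = 1 := by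
  have h : (eU N t).transpose.IsUpperTriangular := by
    intro i j hij
    rw [transpose_apply, eU, if_neg]
    exact Nat.not_le.mpr hij
  rw [← det_transpose, det_of_isUpperTriangular h]
  refine Finset.prod_eq_one fun i _ => ?_
  simp [eU]

/-- the conjugation by the exponential -/
lemma eU_conj (t a b c d : K) :
    eU N t * (a • 1 + b • eE K N + c • eH K N + d • eF K N) =
      (a • 1 + (b - 2 * t * c - t ^ 2 * d) • eE K N + (c + t * d) • eH K N + d • eF K N) *
        eU N t := by
  simp only [Matrix.mul_add, Matrix.add_mul, Matrix.mul_smul, Matrix.smul_mul, Matrix.mul_one,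
    Matrix.one_mul, eU_E, eU_H, eU_F]
  module

/-- AP: the characteristic polynomial -/
theorem ap (a b c d δ : K) (hδ : δ ^ 2 = c ^ 2 + b * d) :
    (a • 1 + b • eE K N + c • eH K N + d • eF K N).charpoly =
      ∏ i : Fin (N + 1), (X - C (a + (2 * ((i : ℕ) : K) - N) * δ)) := by
  by_cases hd : d = 0
  · subst hd
    have h1 : (a • 1 + b • eE K N + c • eH K N + (0 : K) • eF K N).charpoly =
        ∏ i : Fin (N + 1), (X - C (a + (2 * ((i : ℕ) : K) - N) * c)) := by
      rw [← charpoly_transpose, charpoly_of_isUpperTriangular]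
      · refine Finset.prod_congr rfl fun i _ => ?_
        congr 2
        simp [eE, eH, up]
        ring
      · intro i j hij
        have h2 : (j : ℕ) < i := hij
        have h3 : (j : ℕ) ≠ i + 1 := by omega
        have h4 : j ≠ i := fun h => by rw [h] at h2; omega
        simp [eE, eH, up, h3, h4]
    have hc : (c - δ) * (c + δ) = 0 := by linear_combination -hδ
    rw [h1]
    rcases mul_eq_zero.mp hc with h | h
    · have : c = δ := by linear_combination h
      rw [this]
    · have hcδ : c = -δ := by linear_combination h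
      rw [hcδ, ← Equiv.prod_comp Fin.revPerm]
      refine Finset.prod_congr rfl fun i _ => ?_
      congr 3
      have hi := i.2
      have : ((Fin.revPerm i : Fin (N + 1)) : ℕ) = N - i := by
        rw [Fin.revPerm_apply, Fin.val_rev]; omega
      rw [this, Nat.cast_sub (by omega)]
      ring
  · set t : K := (δ - c) / d with ht
    have htd : t * d = δ - c := by rw [ht]; field_simp
    have hconj := eU_conj (N := N) t a b c d
    have h1 : b - 2 * t * c - t ^ 2 * d = 0 := by
      have : d * (b - 2 * t * c - t ^ 2 * d) = 0 := by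
        linear_combination (-(2 * c) - t * d - (δ - c)) * htd - hδ
      exact (mul_eq_zero.mp this).resolve_left hd
    have h2 : c + t * d = δ := by linear_combination htd
    rw [h1, h2] at hconj
    have hU : IsUnit (eU N t) := by
      rw [Matrix.isUnit_iff_isUnit_det, eU_det]; exact isUnit_one
    obtain ⟨u, hu⟩ := hU
    have h3 : a • 1 + b • eE K N + c • eH K N + d • eF K N =
        u.val⁻¹ * (a • 1 + (0 : K) • eE K N + δ • eH K N + d • eF K N) * u.val := by
      have : u.val⁻¹ * u.val = 1 :=
        Matrix.nonsing_inv_mul _ (by rw [hu, eU_det]; exact isUnit_one)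
      rw [Matrix.mul_assoc, hu, ← hconj, ← hu, ← Matrix.mul_assoc, this, Matrix.one_mul]
    have h4 := charpoly_units_conj' u (a • 1 + (0 : K) • eE K N + δ • eH K N + d • eF K N)
    rw [h3]
    refine h4.trans ?_
    rw [charpoly_of_isUpperTriangular]
    · refine Finset.prod_congr rfl fun i _ => ?_
      congr 2
      simp [eF, eH, dn]
      ring
    · intro i j hij
      have h2 : (j : ℕ) < i := hij
      have h3 : (j : ℕ) ≠ i + 1 := by omega
      have h4 : i ≠ j := fun h => by rw [h] at h2; omega
      simp [eF, eH, dn, h3, h4]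

end MT.Gen
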