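import Pool.Agent.Helper92.MU.IRR
import Pool.Agent.Helper3.MU.Base
import Pool.Agent.Helper40.MT.Stmts

/-! IRM: irreducibility of the `l`-adic realisation (helper92). -/

set_option autoImplicit false
set_option maxHeartbeats 800000

open Matrix Polynomial NumberField MU

namespace MT

section
variable {F : Type} [Field F] [NumberField F] {S : Finset ℕ} {n w : ℕ} {h : Fin n → ℕ}

omit [NumberField F] in
lemma irm_congPow (𝔓 : Ideal (Zb F)) (q : ℕ) (σ : Gal F) (hσ : CongPow 𝔓 q σ) (j : ℕ) :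
    CongPow 𝔓 (q ^ j) ((σ ^ j : Gal F)) := by
  exact MU.congPow_pow 𝔓 q σ hσ j

lemma irm_pow {G K : Type} [Group G] [Field K] {m : ℕ} (A : G → Matrix (Fin m) (Fin m) K)
    (h1 : A 1 = 1) (h2 : ∀ g g', A (g * g') = A g * A g') (g : G) (j : ℕ) :
    A (g ^ j) = A g ^ j := by
  induction j with
  | zero => rw [pow_zero, pow_zero, h1]
  | succ j ih => rw [pow_succ, h2, ih, pow_succ]

/-- the relation between the values at the Frobenius elements -/
lemma irm_core (M : PMot F S n w h)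
    {r : ℕ → ℕ} {x : ∀ p, Fin (r p) → Gal F} {k : ∀ p, Fin (r p) → ℕ}
    {𝔔 : ∀ p, Fin (r p) → Ideal (Zb F)} (hT : IsTri F r x k 𝔔) (l : ℕ) [Fact l.Prime]
    {m : ℕ} (B : Matrix (Fin n) (Fin m) ℚ_[l])
    (A : Gal F → Matrix (Fin m) (Fin m) ℚ_[l]) (hs : IsSub (mat (M.ρ l)) B A) :
    ∃ (E : ℕ) (J : Fin (Module.finrank ℚ F) → Finset (Fin n)), 1 ≤ E ∧ (∀ i, (J i).card = m) ∧
      ∀ p : ℕ, p.Prime → p ≠ l →
        ((∏ i, (A (x p i)).det) * (p : ℚ_[l]) ^ (∑ i, ∑ j ∈ J i, h j)) ^ E = 1 := by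
  obtain ⟨e₁, he₁, hss⟩ := M.semistable l
  obtain ⟨e₂, he₂, hHT⟩ := M.hodgeTate l m B A hs
  obtain ⟨ε, hε⟩ := bal_det _ B A hs
  obtain ⟨hA1, hA2⟩ := bal_hom _ B A hs
  have hs' := hs
  obtain ⟨⟨C, hC⟩, hA⟩ := hs'
  have hA' : ∀ g, A g = C * mat (M.ρ l) g * B := fun g => by
    rw [Matrix.mul_assoc, hA, ← Matrix.mul_assoc, hC, Matrix.one_mul]
  have hεc : Continuous ε := by
    have hc : Continuous (fun g => (ε g : ℚ_[l])) := by
      have e : (fun g => (ε g : ℚ_[l])) = fun g =>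
          (C * (M.ρ l g : Matrix (Fin n) (Fin n) ℚ_[l]) * B).det := by
        funext g
        rw [hε, hA']
        rfl
      rw [e]
      have h1 : Continuous (fun g => (M.ρ l g : Matrix (Fin n) (Fin n) ℚ_[l])) :=
        Units.continuous_val.comp (M.continuous l)
      exact Continuous.matrix_det (Continuous.matrix_mul
        (Continuous.matrix_mul continuous_const h1) continuous_const)
    refine Units.continuous_iff.mpr ⟨hc, ?_⟩
    have e : (fun g => (((ε g)⁻¹ : (ℚ_[l])ˣ) : ℚ_[l])) =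
        (fun g => (ε g : ℚ_[l])) ∘ (fun g => g⁻¹) := by
      funext g
      simp
    rw [e]
    exact hc.comp continuous_inv
  obtain ⟨E, hE⟩ : ∃ E : ℕ, E = e₁ * e₂ := ⟨_, rfl⟩
  have hE1 : 1 ≤ E := by rw [hE]; exact Nat.mul_pos he₁ he₂
  -- the character `ε ^ E`
  set η : Gal F →* (ℚ_[l])ˣ := (powMonoidHom E).comp ε with hη
  have hηa : ∀ g, η g = ε g ^ E := fun g => rfl
  set f : ℤ_[l] →+* ℚ_[l] := algebraMap ℤ_[l] ℚ_[l] with hf
  have hfc : Continuous f := continuous_subtype_val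
  have hout : ∀ p : ℕ, p.Prime → p ≠ l → ∀ 𝔓 : Ideal (Zb F), Over p 𝔓 → ∀ σ : Gal F,
      CongPow 𝔓 1 σ → (A σ).det ^ E = 1 := by
    intro p hp hpl 𝔓 h𝔓 σ hσ
    by_cases hpS : p ∈ S
    · have h1 := hss p hpS hpl 𝔓 h𝔓 σ hσ
      have h2 : ∀ i : ℕ, (mat (M.ρ l) σ ^ e₁ - 1) ^ i * B = B * (A σ ^ e₁ - 1) ^ i := by
        intro i
        have e0 : ∀ t : ℕ, mat (M.ρ l) σ ^ t * B = B * A σ ^ t := by
          intro t
          rw [← map_pow, hA, irm_pow A hA1 hA2]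
        induction i with
        | zero => simp
        | succ i ih =>
          have e1 : (mat (M.ρ l) σ ^ e₁ - 1) * B = B * (A σ ^ e₁ - 1) := by
            rw [Matrix.sub_mul, e0, Matrix.one_mul, Matrix.mul_sub, Matrix.mul_one]
          rw [pow_succ, Matrix.mul_assoc, e1, ← Matrix.mul_assoc, ih, Matrix.mul_assoc, pow_succ]
      have h3 := h2 n
      rw [h1, Matrix.zero_mul] at h3
      have h4 : (A σ ^ e₁ - 1) ^ n = 0 := by
        calc (A σ ^ e₁ - 1) ^ n = C * (B * (A σ ^ e₁ - 1) ^ n) := by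
              rw [← Matrix.mul_assoc, hC, Matrix.one_mul]
          _ = 0 := by rw [← h3, Matrix.mul_zero]
      have h5 := bal_unip _ h4
      rw [Matrix.det_pow] at h5
      rw [hE, pow_mul, h5, one_pow]
    · have h1 := M.good l p hp hpS hpl 𝔓 h𝔓 σ hσ
      have h2 : mat (M.ρ l) σ = 1 := by
        change Units.val (M.ρ l σ) = 1
        rw [h1]; rfl
      rw [hA', h2, Matrix.mul_one, hC, Matrix.det_one, one_pow]
  have hEps : IsEps F l η (Units.map (f : ℤ_[l] →* ℚ_[l]))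
      {b : ℤ | ∃ J : Finset (Fin n), J.card = m ∧ b = ((E * ∑ j ∈ J, h j : ℕ) : ℤ)} := by
    refine ⟨?_, Continuous.units_map _ hfc, ?_, ?_⟩
    · have : Continuous (fun g => ε g ^ E) := hεc.pow E
      exact this
    · intro p hp hpl 𝔓 h𝔓 σ hσ
      apply Units.ext
      rw [hηa, Units.val_pow_eq_pow_val, hε, hout p hp hpl 𝔓 h𝔓 σ hσ, Units.val_one]
    · intro 𝔓 h𝔓
      obtain ⟨J, hJ, hJ'⟩ := hHT 𝔓 h𝔓
      refine ⟨_, ⟨J, hJ, rfl⟩, fun σ hσ => ?_⟩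
      have h1 := hJ' σ hσ
      apply Units.ext
      rw [zpow_natCast, Units.val_mul, hηa, Units.val_pow_eq_pow_val, Units.val_pow_eq_pow_val,
        hε, Units.val_one]
      have h2 : ((A σ).det * (((cyc l F σ : ℤ_[l]ˣ) : ℤ_[l]) : ℚ_[l]) ^ (∑ j ∈ J, h j)) ^ E = 1 := by
        rw [hE, mul_comm e₁, pow_mul, h1, one_pow]
      rw [mul_pow, ← pow_mul, mul_comm (∑ j ∈ J, h j) E] at h2
      exact h2
  obtain ⟨b, hb, hb'⟩ := hT.2 l (ℚ_[l])ˣ η (Units.map (f : ℤ_[l] →* ℚ_[l])) _ hEps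
  choose J hJ hJb using hb
  refine ⟨E, J, hE1, hJ, fun p hp hpl => ?_⟩
  obtain ⟨u, hu⟩ := bal_unitp l p hp hpl
  have h1 := hb' p hp hpl u hu
  have h2 : ∑ i, b i = ((E * ∑ i, ∑ j ∈ J i, h j : ℕ) : ℤ) := by
    rw [Finset.mul_sum, Nat.cast_sum]
    exact Finset.sum_congr rfl fun i _ => hJb i
  rw [h2, zpow_natCast] at h1
  have h3 := congrArg (Units.val) h1
  rw [Units.val_mul, Units.val_pow_eq_pow_val, Units.val_one, Units.coe_prod] at h3
  simp only [hηa, Units.val_pow_eq_pow_val, hε] at h3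
  have h4 : ((Units.map (f : ℤ_[l] →* ℚ_[l]) u : (ℚ_[l])ˣ) : ℚ_[l]) = (p : ℚ_[l]) := by
    rw [Units.coe_map, hu]
    exact map_natCast f p
  rw [h4, Finset.prod_pow, mul_comm E, pow_mul, ← mul_pow] at h3
  exact h3

/-- the balance of the weights -/
lemma irm_bal (hPRO : ST_PRO) (M : PMot F S n w h)
    {r : ℕ → ℕ} {x : ∀ p, Fin (r p) → Gal F} {k : ∀ p, Fin (r p) → ℕ}
    {𝔔 : ∀ p, Fin (r p) → Ideal (Zb F)} (hT : IsTri F r x k 𝔔) (l : ℕ) [Fact l.Prime]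
    {m : ℕ} (B : Matrix (Fin n) (Fin m) ℚ_[l])
    (A : Gal F → Matrix (Fin m) (Fin m) ℚ_[l]) (hs : IsSub (mat (M.ρ l)) B A) :
    ∃ E s : ℕ, 1 ≤ E ∧ 2 * s = Module.finrank ℚ F * m * w ∧
      ∀ p : ℕ, p.Prime → p ≠ l → ((∏ i, (A (x p i)).det) * (p : ℚ_[l]) ^ s) ^ E = 1 := by
  obtain ⟨E, J, hE, hJ, hrel⟩ := irm_core M hT l B A hs
  refine ⟨E, ∑ i, ∑ j ∈ J i, h j, hE, ?_, hrel⟩
  set s := ∑ i, ∑ j ∈ J i, h j with hsdef
  by_contra hne
  obtain ⟨p, hp, hpS, hpl⟩ := bal_prime S l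
  obtain ⟨hTr1, hTr2⟩ := hT.1 p hp
  have hx : ∀ i, CongPow (𝔔 p i) (p ^ (k p i * E)) ((x p i ^ E : Gal F)) := by
    intro i
    rw [pow_mul]
    exact irm_congPow _ _ _ (hTr1 i).2.2 E
  choose P hmonic hP1 hP2 using fun i =>
    M.pure p hp hpS (𝔔 p i) (hTr1 i).1 (k p i * E) (x p i ^ E)
      (Nat.mul_pos (hTr1 i).2.1 hE) (hx i) l (Ne.symm hpl)
  obtain ⟨hA1, hA2⟩ := bal_hom _ B A hs
  obtain ⟨D, hD, hD'⟩ := hPRO (r p) m 1 (p ^ (s * E)) (fun i => (p : ℝ) ^ (k p i * E * w)) P hmonic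
    hP1 (by
    intro heq
    apply hne
    have h1 : ∏ i, ((p : ℝ) ^ (k p i * E * w)) ^ m =
        (p : ℝ) ^ (Module.finrank ℚ F * (E * w * m)) := by
      rw [← hTr2, Finset.sum_mul, ← Finset.prod_pow_eq_pow_sum]
      refine Finset.prod_congr rfl fun i _ => ?_
      rw [← pow_mul]; congr 1; ring
    rw [h1] at heq
    have h2 : (p : ℝ) ^ (Module.finrank ℚ F * (E * w * m)) = (p : ℝ) ^ (2 * (s * E)) := by
      have : ((p ^ (s * E) : ℕ) : ℝ) ^ 2 = (p : ℝ) ^ (2 * (s * E)) := by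
        push_cast; rw [← pow_mul]; congr 1; ring
      rw [← this, ← heq]; simp
    have h3 : p ^ (Module.finrank ℚ F * (E * w * m)) = p ^ (2 * (s * E)) := by exact_mod_cast h2
    have h4 := Nat.pow_right_injective hp.two_le h3
    have h5 : E * (2 * s) = E * (Module.finrank ℚ F * m * w) := by
      calc E * (2 * s) = 2 * (s * E) := by ring
        _ = Module.finrank ℚ F * (E * w * m) := h4.symm
        _ = _ := by ring
    exact Nat.eq_of_mul_eq_mul_left hE h5)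
  have hfin := hD' ℚ_[l] (fun i => (A (x p i ^ E)⁻¹).charpoly)
    (fun i => ⟨Matrix.charpoly_monic _, ?_, ?_⟩) ?_
  · exact hD (by exact_mod_cast hfin)
  · rw [Matrix.charpoly_natDegree_eq_dim, Fintype.card_fin]
  · obtain ⟨⟨C, hC⟩, hA⟩ := hs
    exact (bal_dvd _ _ B C hC (hA _)).trans (hP2 i)
  · have e : ∀ i, (-1 : ℚ_[l]) ^ m * ((A (x p i ^ E)⁻¹).charpoly).coeff 0 =
        (A (x p i ^ E)⁻¹).det := by
      intro i
      rw [Matrix.det_eq_sign_charpoly_coeff, Fintype.card_fin]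
    simp only [e]
    have h3 : (∏ i, (A (x p i ^ E)⁻¹).det) * (∏ i, (A (x p i)).det) ^ E = 1 := by
      rw [← Finset.prod_pow, ← Finset.prod_mul_distrib]
      refine Finset.prod_eq_one fun i _ => ?_
      rw [← Matrix.det_pow, ← irm_pow A hA1 hA2, ← Matrix.det_mul, ← hA2, inv_mul_cancel, hA1,
        Matrix.det_one]
    have h4 := hrel p hp hpl
    rw [mul_pow, ← pow_mul] at h4
    push_cast
    rw [one_mul]
    calc (∏ i, (A (x p i ^ E)⁻¹).det) = (∏ i, (A (x p i ^ E)⁻¹).det) *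
          ((∏ i, (A (x p i)).det) ^ E * (p : ℚ_[l]) ^ (s * E)) := by rw [h4, mul_one]
      _ = (p : ℚ_[l]) ^ (s * E) := by rw [← mul_assoc, h3, one_mul]

end

theorem st_IRM (tri : ST_TRI) (pro : ST_PRO) (lin : ST_LIN) : ST_IRM := by
  intro F _ _ S hS n w h M l _ p hp hpl hMU m B A hs
  obtain ⟨r, x, k, 𝔔, hT⟩ := tri F
  have hmn := irr_le _ _ _ hs
  have hd : 0 < Module.finrank ℚ F := Module.finrank_pos
  obtain ⟨E, s, hE, hs2, hrel⟩ := irm_bal pro M hT l B A hs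
  obtain ⟨E', s', hE', hs2', hrel'⟩ := irm_bal pro M hT l 1 _ (irr_whole (mat (M.ρ l)))
  have h1 := hrel p hp hpl
  have h2 := hrel' p hp hpl
  obtain ⟨hTr1, hTr2⟩ := hT.1 p hp
  have hpK : (p : ℚ_[l]) ≠ 0 := by exact_mod_cast hp.ne_zero
  have h3 : (∏ i, (A (x p i)).det) ^ (2 * n) =
      (∏ i, (mat (M.ρ l) (x p i)).det) ^ (2 * m) *
        (p : ℚ_[l]) ^ (Module.finrank ℚ F * (m * n * (n - m))) := by
    rw [← hTr2, Finset.sum_mul, ← Finset.prod_pow_eq_pow_sum, ← Finset.prod_pow,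
      ← Finset.prod_pow, ← Finset.prod_mul_distrib]
    refine Finset.prod_congr rfl fun i _ => ?_
    obtain ⟨hO, hk, hc⟩ := hTr1 i
    obtain ⟨τ, hτ1, hτ2, hτ3, hτ4⟩ := hMU (𝔔 p i) hO
    obtain ⟨⟨C, hC⟩, hA⟩ := hs
    have h5 := hτ4 (k p i) (x p i) hk hc
    have h6 : mat (M.ρ l) (x p i) * mat (M.ρ l) τ =
        mat (M.ρ l) τ ^ (p ^ k p i) * mat (M.ρ l) (x p i) := by
      have h7 : M.ρ l (x p i) * M.ρ l τ = (M.ρ l τ) ^ (p ^ k p i) * M.ρ l (x p i) := by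
        rw [← h5, map_mul, map_mul, map_inv, inv_mul_cancel_right]
      rw [← map_mul, ← map_pow, ← map_mul]
      rw [← map_mul, ← map_pow, ← map_mul] at h7
      change Units.val (M.ρ l _) = Units.val (M.ρ l _)
      rw [h7]
    have h8 := lin ℚ_[l] n m (p ^ k p i) (by push_cast; exact pow_ne_zero _ hpK)
      (mat (M.ρ l) τ) (mat (M.ρ l) (x p i)) B C (A τ) (A (x p i)) h6 hτ2 hτ3 hC
      (hA τ) (hA (x p i))
    rw [h8]
    push_cast
    rw [← pow_mul]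
  set α := ∏ i, (A (x p i)).det with hα
  set β := ∏ i, (mat (M.ρ l) (x p i)).det with hβ
  have h4 := irr_algebra (α ^ (E * E')) (β ^ (E * E')) ((p : ℚ_[l]) ^ (E * E')) n m s s'
    (Module.finrank ℚ F) w (Module.finrank ℚ F * (m * n * (n - m)))
    (by
      have : α ^ (E * E') * ((p : ℚ_[l]) ^ (E * E')) ^ s = ((α * (p : ℚ_[l]) ^ s) ^ E) ^ E' := by
        ring
      rw [this, h1, one_pow])
    (by
      have : β ^ (E * E') * ((p : ℚ_[l]) ^ (E * E')) ^ s' = ((β * (p : ℚ_[l]) ^ s') ^ E') ^ E := by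
        ring
      rw [this, h2, one_pow]) hs2 hs2'
    (by
      rw [← pow_mul, mul_comm (E * E'), pow_mul, h3, mul_pow]
      congr 1
      · rw [← pow_mul, ← pow_mul, mul_comm]
      · rw [← pow_mul, ← pow_mul, mul_comm])
  rw [← pow_mul] at h4
  have h5 : p ^ (E * E' * (Module.finrank ℚ F * (m * n * (n - m)))) = 1 := by exact_mod_cast h4
  have h6 := (Nat.pow_eq_one.mp h5).resolve_left hp.one_lt.ne'
  have h7 : Module.finrank ℚ F * (m * n * (n - m)) = 0 := by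
    rcases Nat.mul_eq_zero.mp h6 with h | h
    · exact absurd h (Nat.mul_pos hE hE').ne'
    · exact h
  exact irr_end hd hmn h7

end MT
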