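import Pool.Agent.Helper92.MT.IRM
import Pool.Agent.Helper40.MT.Defs2

/-! IRM2, the case `p₀ = l` (helper92). -/

set_option autoImplicit false
set_option maxHeartbeats 800000

open Matrix Polynomial NumberField MU

namespace MT

section
variable {F : Type} [Field F] [NumberField F] {S : Finset ℕ} {n w : ℕ} {h : Fin n → ℕ}

/-- the determinant character of a subrepresentation -/
lemma irm_char (M : PMot F S n w h) (l : ℕ) [Fact l.Prime]
    {m : ℕ} (B : Matrix (Fin n) (Fin m) ℚ_[l])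
    (A : Gal F → Matrix (Fin m) (Fin m) ℚ_[l]) (hs : IsSub (mat (M.ρ l)) B A) :
    ∃ (ε : Gal F →* (ℚ_[l])ˣ) (e₁ : ℕ), 1 ≤ e₁ ∧ Continuous ε ∧
      (∀ g, (ε g : ℚ_[l]) = (A g).det) ∧
      ∀ p : ℕ, p.Prime → p ≠ l → ∀ 𝔓 : Ideal (Zb F), Over p 𝔓 → ∀ σ : Gal F,
        CongPow 𝔓 1 σ → ε σ ^ e₁ = 1 := by
  obtain ⟨e₁, he₁, hss⟩ := M.semistable l
  obtain ⟨ε, hε⟩ := bal_det _ B A hs
  obtain ⟨hA1, hA2⟩ := bal_hom _ B A hs
  have hs' := hs
  obtain ⟨⟨C, hC⟩, hA⟩ := hs'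
  have hA' : ∀ g, A g = C * mat (M.ρ l) g * B := fun g => by
    rw [Matrix.mul_assoc, hA, ← Matrix.mul_assoc, hC, Matrix.one_mul]
  have hεc : Continuous ε := by
    have hc : Continuous (fun g => (ε g : ℚ_[l])) := by
      have e : (fun g => (ε g : ℚ_[l])) = fun g =>
          (C * (M.ρ l g : Matrix (Fin n) (Fin n) ℚ_[l]) * B).det := by
        funext g
        rw [hε, hA']
        rfl
      rw [e]
      have h1 : Continuous (fun g => (M.ρ l g : Matrix (Fin n) (Fin n) ℚ_[l])) :=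
        Units.continuous_val.comp (M.continuous l)
      exact Continuous.matrix_det (Continuous.matrix_mul
        (Continuous.matrix_mul continuous_const h1) continuous_const)
    refine Units.continuous_iff.mpr ⟨hc, ?_⟩
    have e : (fun g => (((ε g)⁻¹ : (ℚ_[l])ˣ) : ℚ_[l])) =
        (fun g => (ε g : ℚ_[l])) ∘ (fun g => g⁻¹) := by
      funext g
      simp
    rw [e]
    exact hc.comp continuous_inv
  refine ⟨ε, e₁, he₁, hεc, hε, ?_⟩
  intro p hp hpl 𝔓 h𝔓 σ hσ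
  apply Units.ext
  rw [Units.val_pow_eq_pow_val, hε, Units.val_one]
  by_cases hpS : p ∈ S
  · have h1 := hss p hpS hpl 𝔓 h𝔓 σ hσ
    have h2 : ∀ i : ℕ, (mat (M.ρ l) σ ^ e₁ - 1) ^ i * B = B * (A σ ^ e₁ - 1) ^ i := by
      intro i
      have e0 : ∀ t : ℕ, mat (M.ρ l) σ ^ t * B = B * A σ ^ t := by
        intro t
        rw [← map_pow, hA, irm_pow A hA1 hA2]
      induction i with
      | zero => simp
      | succ i ih =>
        have e1 : (mat (M.ρ l) σ ^ e₁ - 1) * B = B * (A σ ^ e₁ - 1) := by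
          rw [Matrix.sub_mul, e0, Matrix.one_mul, Matrix.mul_sub, Matrix.mul_one]
        rw [pow_succ, Matrix.mul_assoc, e1, ← Matrix.mul_assoc, ih, Matrix.mul_assoc, pow_succ]
    have h3 := h2 n
    rw [h1, Matrix.zero_mul] at h3
    have h4 : (A σ ^ e₁ - 1) ^ n = 0 := by
      calc (A σ ^ e₁ - 1) ^ n = C * (B * (A σ ^ e₁ - 1) ^ n) := by
            rw [← Matrix.mul_assoc, hC, Matrix.one_mul]
        _ = 0 := by rw [← h3, Matrix.mul_zero]
    have h5 := bal_unip _ h4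
    rwa [Matrix.det_pow] at h5
  · have h1 := M.good l p hp hpS hpl 𝔓 h𝔓 σ hσ
    have h2 : mat (M.ρ l) σ = 1 := by
      change Units.val (M.ρ l σ) = 1
      rw [h1]; rfl
    rw [hA', h2, Matrix.mul_one, hC, Matrix.det_one, one_pow]

/-- irreducibility from the places over `l` -/
lemma irm_l (hPRO : ST_PRO) (M : PMot F S n w h)
    {r : ℕ → ℕ} {x : ∀ p, Fin (r p) → Gal F} {k : ∀ p, Fin (r p) → ℕ}
    {𝔔 : ∀ p, Fin (r p) → Ideal (Zb F)} (hT : IsTri F r x k 𝔔) (l : ℕ) [Fact l.Prime]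
    (hM : M.MumCrys l) : IsIrr (mat (M.ρ l)) := by
  intro m B A hs
  obtain ⟨e, he, hl⟩ := hM.1 m B A hs
  obtain ⟨ε, e₁, he₁, hεc, hε, hout⟩ := irm_char M l B A hs
  obtain ⟨E, s, hE, h2s, hrel⟩ := irm_bal hPRO M hT l B A hs
  obtain ⟨p, hp, -, hpl⟩ := bal_prime S l
  have hpK : (p : ℚ_[l]) ≠ 0 := by exact_mod_cast hp.ne_zero
  set f : ℤ_[l] →+* ℚ_[l] := algebraMap ℤ_[l] ℚ_[l] with hf
  have hfc : Continuous f := continuous_subtype_val
  set c : ℤ := (m : ℤ) * (w + m - n) with hc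
  have hEps : IsEps F l ((powMonoidHom (2 * e * e₁)).comp ε) (Units.map (f : ℤ_[l] →* ℚ_[l]))
      {c * ((e * e₁ : ℕ) : ℤ)} := by
    refine ⟨hεc.pow _, Continuous.units_map _ hfc, ?_, ?_⟩
    · intro q hq hql 𝔓 h𝔓 σ hσ
      change ε σ ^ (2 * e * e₁) = 1
      rw [mul_comm (2 * e), pow_mul, hout q hq hql 𝔓 h𝔓 σ hσ, one_pow]
    · intro 𝔓 h𝔓
      refine ⟨_, rfl, fun σ hσ => ?_⟩
      have h1 := hl 𝔓 h𝔓 σ hσ
      change ε σ ^ (2 * e * e₁) * (Units.map (f : ℤ_[l] →* ℚ_[l]) (cyc l F σ)) ^ _ = 1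
      have h2 : (ε σ ^ 2 * (Units.map (f : ℤ_[l] →* ℚ_[l]) (cyc l F σ)) ^ c) ^ e = 1 := by
        apply Units.ext
        rw [Units.val_pow_eq_pow_val, Units.val_mul, Units.val_pow_eq_pow_val,
          Units.val_zpow_eq_zpow_val, hε, Units.val_one]
        exact h1
      have h3 : ε σ ^ (2 * e * e₁) * (Units.map (f : ℤ_[l] →* ℚ_[l]) (cyc l F σ)) ^
          (c * ((e * e₁ : ℕ) : ℤ)) =
          ((ε σ ^ 2 * (Units.map (f : ℤ_[l] →* ℚ_[l]) (cyc l F σ)) ^ c) ^ e) ^ e₁ := by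
        rw [mul_pow, mul_pow, _root_.zpow_mul, zpow_natCast, ← pow_mul, ← pow_mul, ← pow_mul,
          ← mul_assoc]
      rw [h3, h2, one_pow]
  obtain ⟨b, hb, hb'⟩ := hT.2 l (ℚ_[l])ˣ _ _ _ hEps
  obtain ⟨u, hu⟩ := bal_unitp l p hp hpl
  have h1 := hb' p hp hpl u hu
  have h2 : ∑ i, b i = (Module.finrank ℚ F : ℤ) * (c * ((e * e₁ : ℕ) : ℤ)) := by
    rw [Finset.sum_congr rfl fun i _ => (hb i : b i = c * ((e * e₁ : ℕ) : ℤ))]
    simp
  rw [h2] at h1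
  have h3 := congrArg (Units.val) h1
  rw [Units.val_mul, Units.val_zpow_eq_zpow_val, Units.val_one, Units.coe_prod] at h3
  have h4 : ((Units.map (f : ℤ_[l] →* ℚ_[l]) u : (ℚ_[l])ˣ) : ℚ_[l]) = (p : ℚ_[l]) := by
    rw [Units.coe_map, hu]
    exact map_natCast f p
  have h5 : ∀ g, ((((powMonoidHom (2 * e * e₁)).comp ε) g : (ℚ_[l])ˣ) : ℚ_[l]) =
      (A g).det ^ (2 * e * e₁) := by
    intro g
    change (((ε g) ^ (2 * e * e₁) : (ℚ_[l])ˣ) : ℚ_[l]) = _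
    rw [Units.val_pow_eq_pow_val, hε]
  simp only [h5] at h3
  rw [h4, Finset.prod_pow] at h3
  set α := ∏ i, (A (x p i)).det with hα
  have h6 := hrel p hp hpl
  -- compare
  have h7 : (p : ℚ_[l]) ^ ((Module.finrank ℚ F : ℤ) * (c * ((e * e₁ : ℕ) : ℤ)) * E) =
      (p : ℚ_[l]) ^ ((s : ℤ) * ((2 * e * e₁ : ℕ) : ℤ) * E) := by
    have h8 : (α ^ (2 * e * e₁)) ^ E * (p : ℚ_[l]) ^
        ((Module.finrank ℚ F : ℤ) * (c * ((e * e₁ : ℕ) : ℤ)) * E) = 1 := by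
      rw [_root_.zpow_mul _ _ (E : ℤ), zpow_natCast, ← mul_pow, h3, one_pow]
    have h9 : (α ^ (2 * e * e₁)) ^ E * (p : ℚ_[l]) ^
        ((s : ℤ) * ((2 * e * e₁ : ℕ) : ℤ) * E) = 1 := by
      have h10 : (α ^ (2 * e * e₁)) ^ E * (p : ℚ_[l]) ^
        ((s : ℤ) * ((2 * e * e₁ : ℕ) : ℤ) * E) = ((α * (p : ℚ_[l]) ^ s) ^ E) ^ (2 * e * e₁) := by
        rw [← Nat.cast_mul, ← Nat.cast_mul, zpow_natCast]
        ring
      rw [h10, h6, one_pow]
    have h11 : (α ^ (2 * e * e₁)) ^ E ≠ 0 := by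
      intro h0
      rw [h0, zero_mul] at h9
      exact zero_ne_one h9
    exact mul_left_cancel₀ h11 (h8.trans h9.symm)
  have h8 : (Module.finrank ℚ F : ℤ) * (c * ((e * e₁ : ℕ) : ℤ)) * E =
      (s : ℤ) * ((2 * e * e₁ : ℕ) : ℤ) * E := by
    have h9 : ((p : ℚ) ^ ((Module.finrank ℚ F : ℤ) * (c * ((e * e₁ : ℕ) : ℤ)) * E)) =
      ((p : ℚ) ^ ((s : ℤ) * ((2 * e * e₁ : ℕ) : ℤ) * E)) := by
      have h10 := h7
      have h11 : ((((p : ℚ) ^ ((Module.finrank ℚ F : ℤ) * (c * ((e * e₁ : ℕ) : ℤ)) * E) : ℚ)) :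
          ℚ_[l]) = ((((p : ℚ) ^ ((s : ℤ) * ((2 * e * e₁ : ℕ) : ℤ) * E) : ℚ)) : ℚ_[l]) := by
        push_cast
        push_cast at h10
        exact h10
      exact_mod_cast h11
    exact zpow_right_injective₀ (by exact_mod_cast hp.pos) (by exact_mod_cast hp.one_lt.ne') h9
  have hd : (0 : ℤ) < Module.finrank ℚ F := by exact_mod_cast (Module.finrank_pos : 0 < Module.finrank ℚ F)
  have hs2 : (2 : ℤ) * s = Module.finrank ℚ F * m * w := by exact_mod_cast h2s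
  have he' : (0 : ℤ) < e := by exact_mod_cast he
  have he₁' : (0 : ℤ) < e₁ := by exact_mod_cast he₁
  have hE' : (0 : ℤ) < E := by exact_mod_cast hE
  have h9 : (Module.finrank ℚ F : ℤ) * e * e₁ * E * (m * (m - n)) = 0 := by
    push_cast at h8
    have h10 : (Module.finrank ℚ F : ℤ) * (c * (e * e₁)) * E = (2 * s) * (e * e₁) * E := by
      rw [h8]; ring
    rw [hs2, hc] at h10
    linear_combination h10
  have h10 : (m : ℤ) * (m - n) = 0 := by
    rcases mul_eq_zero.mp h9 with h | h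
    · exfalso
      have : (0 : ℤ) < (Module.finrank ℚ F : ℤ) * e * e₁ * E := by positivity
      omega
    · exact h
  rcases mul_eq_zero.mp h10 with h | h
  · left; exact_mod_cast h
  · right
    have : (m : ℤ) = n := by linarith
    exact_mod_cast this

end

end MT
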